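import Pool.Agent.Helper74_RL.Stmts
import Pool.Agent.Common_Brouwer.Schauder

/-!
# Module S2N (helper21): the identity of the 2-sphere is not homotopic to a constant
-/

noncomputable section

open scoped ContDiff Topology ENNReal RealInnerProductSpace BoundedContinuousFunction
set_option maxSynthPendingDepth 3
open Set Metric

namespace Pool.Agent.RLim.H21

open Pool.Agent.RLim Pool.Agent.RF

/-- the normalization, with a junk value at `0` -/
def nz (c : sphere (0 : E3) 1) (x : E3) : sphere (0 : E3) 1 :=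
  if h : x = 0 then c else ⟨‖x‖⁻¹ • x, by
    rw [mem_sphere_zero_iff_norm, norm_smul, norm_inv, norm_norm,
      inv_mul_cancel₀ (norm_ne_zero_iff.2 h)]⟩

theorem nz_val {c : sphere (0 : E3) 1} {x : E3} (h : x ≠ 0) : (nz c x : E3) = ‖x‖⁻¹ • x := by
  simp [nz, h]

theorem nz_cont {c : sphere (0 : E3) 1} {x : E3} (h : x ≠ 0) : ContinuousAt (nz c) x := by
  rw [Topology.IsInducing.subtypeVal.continuousAt_iff]
  have h1 : (Subtype.val ∘ nz c) =ᶠ[𝓝 x] fun y => ‖y‖⁻¹ • y := by
    filter_upwards [isOpen_ne.mem_nhds h] with y hy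
    exact nz_val hy
  refine ContinuousAt.congr ?_ h1.symm
  exact (continuousAt_id.norm.inv₀ (norm_ne_zero_iff.2 h)).smul continuousAt_id

theorem s2n : S2nStmt := by
  rintro ⟨c, ⟨H⟩⟩
  set F : E3 → sphere (0 : E3) 1 :=
    fun x => H (projIcc (0:ℝ) 1 zero_le_one (2 - 2 * ‖x‖), nz c x) with hF
  have hF0 : ∀ x : E3, ‖x‖ ≤ 1 / 2 → F x = c := by
    intro x hx
    have h1 : projIcc (0:ℝ) 1 zero_le_one (2 - 2 * ‖x‖) = 1 :=
      projIcc_of_right_le _ (by linarith)
    simp only [hF, h1]
    exact H.map_one_left _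
  have hF1 : ∀ x : E3, ‖x‖ = 1 → (F x : E3) = x := by
    intro x hx
    have h1 : projIcc (0:ℝ) 1 zero_le_one (2 - 2 * ‖x‖) = 0 :=
      projIcc_of_le_left _ (by linarith)
    have hx0 : x ≠ 0 := by
      rintro rfl
      simp at hx
    have h2 : F x = nz c x := by
      simp only [hF, h1]
      exact H.map_zero_left _
    rw [h2, nz_val hx0, hx, inv_one, one_smul]
  have hFc : Continuous F := by
    rw [continuous_iff_continuousAt]
    intro x
    by_cases hx : ‖x‖ < 1 / 2
    · have h1 : F =ᶠ[𝓝 x] fun _ => c := by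
        filter_upwards [(isOpen_lt continuous_norm continuous_const).mem_nhds hx] with y hy
        exact hF0 y (le_of_lt hy)
      exact continuousAt_const.congr h1.symm
    · have hx0 : x ≠ 0 := by
        rintro rfl
        simp at hx
      have h1 : ContinuousAt (fun x : E3 => projIcc (0:ℝ) 1 zero_le_one (2 - 2 * ‖x‖)) x :=
        (continuous_projIcc.comp (by fun_prop)).continuousAt
      exact H.continuous.continuousAt.comp (h1.prodMk (nz_cont hx0))
  obtain ⟨x, hx, hfx⟩ := Common_Brouwer.schauder (E := E3) (K := closedBall 0 1)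
    (isCompact_closedBall _ _) (convex_closedBall _ _) ⟨0, by simp⟩
    (f := fun x => -(F x : E3)) ((continuous_subtype_val.comp hFc).neg.continuousOn) (by
      intro x _
      rw [mem_closedBall_zero_iff, norm_neg]
      exact (mem_sphere_zero_iff_norm.1 (F x).2).le)
  have h1 : ‖x‖ = 1 := by
    rw [← hfx, norm_neg]
    exact mem_sphere_zero_iff_norm.1 (F x).2
  have h2 : -x = x := by
    have h3 := hF1 x h1
    simp only [h3] at hfx
    exact hfx
  have h3 : x = 0 := by
    have h4 : (2:ℝ) • x = 0 := by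
      rw [two_smul]
      nth_rewrite 1 [← h2]
      simp
    exact (smul_eq_zero.1 h4).resolve_left two_ne_zero
  rw [h3, norm_zero] at h1
  exact zero_ne_one h1

end Pool.Agent.RLim.H21
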