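import Pool.Agent.Helper74_RL.Stmts

/-!
# Module TUB (helper21): small tubes
-/

noncomputable section

open scoped ContDiff Topology ENNReal RealInnerProductSpace BoundedContinuousFunction
set_option maxSynthPendingDepth 3
open Set Metric

namespace Pool.Agent.RLim.H21

open Pool.Agent.RLim Pool.Agent.RF

theorem continuous_hq : Continuous hq := by
  unfold hq
  fun_prop

theorem continuousAt_hopf {x : E4} (h : x ≠ 0) : ContinuousAt hopf x := by
  have h1 : hopf = fun x : E4 => (‖x‖ ^ 2)⁻¹ • hq x := funext hopf_eq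
  rw [h1]
  have h2 : ContinuousAt (fun x : E4 => (‖x‖ ^ 2)⁻¹) x :=
    (by fun_prop : Continuous fun x : E4 => ‖x‖ ^ 2).continuousAt.inv₀
      (pow_ne_zero 2 (norm_ne_zero_iff.2 h))
  exact h2.smul continuous_hq.continuousAt

/-- a direction vector away from the centre -/
theorem snd_eq (D : MetricData) (y : BlI D) (k : ℕ) (h : y.1.1 ≠ D.P k) :
    y.1.2 k = D.w k • hopf (y.1.1 - D.P k) := by
  have h0 : y.1.1 - D.P k ≠ 0 := sub_ne_zero.2 h
  have h1 := (y.2 k).2
  have h2 : ‖y.1.1 - D.P k‖ ^ 2 • ((D.w k)⁻¹ • y.1.2 k) = hq (y.1.1 - D.P k) := by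
    rw [smul_comm, h1, smul_smul, inv_mul_cancel₀ (D.w_pos k).ne', one_smul]
  rw [← eq_hopf h0 h2, smul_smul, mul_inv_cancel₀ (D.w_pos k).ne', one_smul]

theorem tub : TubStmt := by
  intro D X N ε hε hX hw
  have hev : ∀ᶠ Z in 𝓝 X, ∀ k ∈ Finset.range N, Z ≠ D.P k ∧
      dist (D.w k • hopf (Z - D.P k)) (D.w k • hopf (X - D.P k)) < ε / 4 := by
    rw [Filter.eventually_all_finset]
    intro k hk
    have hk' := hX k (Finset.mem_range.1 hk)
    have h1 : ContinuousAt (fun Z => D.w k • hopf (Z - D.P k)) X := by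
      refine ContinuousAt.const_smul ?_ (D.w k)
      have h2 : ContinuousAt hopf (X - D.P k) := continuousAt_hopf (sub_ne_zero.2 hk')
      exact h2.comp (f := fun Z => Z - D.P k) (by fun_prop)
    have h3 : ∀ᶠ Z in 𝓝 X, Z ≠ D.P k := isOpen_ne.mem_nhds hk'
    exact h3.and (Metric.tendsto_nhds.1 h1 (ε / 4) (by positivity))
  obtain ⟨δ, hδ, hball⟩ := Metric.eventually_nhds_iff.1 hev
  refine ⟨min δ (ε / 4), lt_min hδ (by positivity), fun y y' hy hy' => ?_⟩
  have hyδ : dist y.1.1 X < δ := by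
    rw [dist_eq_norm]; exact hy.trans_le (min_le_left _ _)
  have hyδ' : dist y'.1.1 X < δ := by
    rw [dist_eq_norm]; exact hy'.trans_le (min_le_left _ _)
  have hyε : dist y.1.1 X < ε / 4 := by
    rw [dist_eq_norm]; exact hy.trans_le (min_le_right _ _)
  have hyε' : dist y'.1.1 X < ε / 4 := by
    rw [dist_eq_norm]; exact hy'.trans_le (min_le_right _ _)
  have h1 : dist y.1.1 y'.1.1 ≤ ε / 2 := by
    have := dist_triangle_right y.1.1 y'.1.1 X
    linarith
  have h2 : dist y.1.2 y'.1.2 ≤ ε / 2 := by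
    rw [BoundedContinuousFunction.dist_le (by positivity)]
    intro k
    by_cases hk : k < N
    · obtain ⟨ha, hb⟩ := hball hyδ k (Finset.mem_range.2 hk)
      obtain ⟨ha', hb'⟩ := hball hyδ' k (Finset.mem_range.2 hk)
      rw [snd_eq D y k ha, snd_eq D y' k ha']
      have := dist_triangle_right (D.w k • hopf (y.1.1 - D.P k))
        (D.w k • hopf (y'.1.1 - D.P k)) (D.w k • hopf (X - D.P k))
      linarith
    · push Not at hk
      have h3 := hw k hk
      have h4 := dist_le_norm_add_norm (y.1.2 k) (y'.1.2 k)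
      rw [(y.2 k).1, (y'.2 k).1] at h4
      linarith
  have h3 : dist y y' = max (dist y.1.1 y'.1.1) (dist y.1.2 y'.1.2) := rfl
  rw [h3]
  exact (max_le h1 h2).trans_lt (by linarith)

end Pool.Agent.RLim.H21
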